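import Pool.Agent.Helpers25.ARNu

/-!
# MP_aa6ebe_pr: algebraic recurrence depends on the step distribution

There are a countable (abelian) group `G` and two admissible (symmetric, adapted) laws `μ`, `ν` on
`G` such that `(G, μ)` is algebraically recurrent and `(G, ν)` is not.
Definitions (`walk`, `semi`, `Admissible`, `AlgRecurrent`) are in `Pool/Agent/Helpers25/ARDefs.lean`.
-/

namespace Pool.Agent.Results.MP_aa6ebe_pr.DependsOnLaw

open Pool.Agent.Helpers25.AR

theorem result : ∃ (G : Type) (_ : CommGroup G) (_ : Countable G) (μ ν : PMF G),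
    Admissible μ ∧ Admissible ν ∧ AlgRecurrent μ ∧ ¬ AlgRecurrent ν :=
  ⟨GG, inferInstance, inferInstance, muB, nuA, muB_admissible, nuA_admissible, muB_AR, nuA_not_AR⟩

end Pool.Agent.Results.MP_aa6ebe_pr.DependsOnLaw
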